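import Pool.Agent.Helper88.GU.St

/-!
# Project GU2, module VD: calculus of the difference quotient
-/

set_option autoImplicit false

namespace Pool.Agent.Helper28.GU2

open Polynomial
open Pool.Agent.Helper91.GU Pool.Agent.Helper88.GU

universe u

theorem hVD : Pool.Agent.Helper88.GU.StVD.{u} := by
  intro A _ G
  have h1 : ∀ f, (X - C 1) * dl G f = G.Γ f - C f := by
    intro f
    unfold dl
    rw [mul_divByMonic_eq_iff_isRoot, IsRoot.def, eval_sub, eval_C, G.sum, sub_self]
  have h2 : ∀ h : A[X], (X - C 1) * h = 0 → h = 0 := by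
    intro h hh
    exact ((monic_X_sub_C (1 : A)).mul_right_eq_zero_iff).1 hh
  have hc : ∀ a b : A[X], (X - C 1) * a = (X - C 1) * b → a = b := by
    intro a b hab
    exact sub_eq_zero.1 (h2 _ (by rw [mul_sub, hab, sub_self]))
  have h3 : ∀ f g, dl G (f + g) = dl G f + dl G g := by
    intro f g
    refine hc _ _ ?_
    rw [mul_add, h1, h1, h1, map_add, C_add]
    ring
  have h4 : ∀ f g, dl G (f * g) = dl G f * C g + G.Γ f * dl G g := by
    intro f g
    refine hc _ _ ?_
    have e : (X - C 1) * (dl G f * C g + G.Γ f * dl G g) =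
        (X - C 1) * dl G f * C g + G.Γ f * ((X - C 1) * dl G g) := by ring
    rw [e, h1, h1, h1, map_mul, C_mul]
    ring
  have h5 : ∀ f, G.Γ f = C f → dl G f = 0 := by
    intro f hf
    refine h2 _ ?_
    rw [h1, hf, sub_self]
  refine ⟨h1, h2, h3, h4, h5, ?_, ?_⟩
  · intro f e hf
    refine hc _ _ ?_
    have e1 : (X - C 1) * (C f * br e) = C f * ((X - 1) * br e) := by
      rw [C_1]; ring
    rw [h1, hf, e1]
    unfold br
    rw [mul_geom_sum]
    ring
  · intro f v γ ℓ hγ
    rw [h3, h4, h3, h5 γ hγ, zero_add]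
    simp only [C_add, C_mul]
    ring

end Pool.Agent.Helper28.GU2
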