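import Pool.Agent.Helper88.GU.St

/-!
# Project GU2, module YC: heights relative to a constant
-/

set_option autoImplicit false

namespace Pool.Agent.Helper28.GU2

open Pool.Agent.Helper91.GU Pool.Agent.Helper88.GU IsLocalRing

universe u

/-- the extension of a prime to a polynomial ring is prime -/
theorem isPrime_mapC {R : Type u} [CommRing R] {n : ℕ} (q : Ideal R) [q.IsPrime] :
    (q.map (MvPolynomial.C : R →+* MvPolynomial (Fin n) R)).IsPrime := by
  rw [← Ideal.Quotient.isDomain_iff_prime]
  exact (MvPolynomial.quotientEquivQuotientMvPolynomial (σ := Fin n) q).toMulEquiv.symm.isDomain _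

/-- a minimal prime of a subalgebra of a polynomial ring lies over a minimal prime -/
theorem min_over {R : Type u} [CommRing R] {n : ℕ} (A : Subalgebra R (MvPolynomial (Fin n) R))
    (P : Ideal A) (hP : P ∈ minimalPrimes A) (s : R) (hs : algebraMap R A s ∈ P) :
    ∃ q ∈ minimalPrimes R, s ∈ q := by
  have hinj : Function.Injective (A.val : A →+* MvPolynomial (Fin n) R) :=
    Subtype.val_injective
  have hP' : P ∈ ((⊥ : Ideal (MvPolynomial (Fin n) R)).comap
      (A.val : A →+* MvPolynomial (Fin n) R)).minimalPrimes := by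
    have e : (⊥ : Ideal (MvPolynomial (Fin n) R)).comap
        (A.val : A →+* MvPolynomial (Fin n) R) = ⊥ := Ideal.comap_bot_of_injective _ hinj
    rw [e]; exact hP
  obtain ⟨Q, hQ, hQP⟩ := Ideal.exists_minimalPrimes_comap_eq _ P hP'
  have hQp : Q.IsPrime := hQ.1.1
  obtain ⟨q, hq, hqQ⟩ := Ideal.exists_minimalPrimes_le
    (bot_le : (⊥ : Ideal R) ≤ Q.comap (MvPolynomial.C : R →+* MvPolynomial (Fin n) R))
  have hqp : q.IsPrime := hq.1.1
  refine ⟨q, hq, ?_⟩
  have hmap : q.map (MvPolynomial.C : R →+* MvPolynomial (Fin n) R) ≤ Q := Ideal.map_le_iff_le_comap.2 hqQ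
  have hle : Q ≤ q.map (MvPolynomial.C : R →+* MvPolynomial (Fin n) R) :=
    hQ.2 ⟨isPrime_mapC q, bot_le⟩ hmap
  have hsQ : (MvPolynomial.C s : MvPolynomial (Fin n) R) ∈ Q := by
    rw [← hQP] at hs
    exact hs
  have h1 := MvPolynomial.mem_map_C_iff.1 (hle hsQ) 0
  rwa [MvPolynomial.coeff_C, if_pos rfl] at h1

theorem hYC (hYB : StYB.{u}) : Pool.Agent.Helper88.GU.StYC.{u} := by
  intro R _ _ _ d n hd hdim A hA
  have hht : ∀ p : Ideal R, p.IsPrime → p.height ≤ (d : ℕ∞) := by
    intro p hp
    have h1 := (Ideal.height_le_ringKrullDim_of_ne_top hp.ne_top).trans hdim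
    exact_mod_cast h1
  have hfin : ∀ P : Ideal A, P.IsPrime → ∃ k : ℕ, (P.comap (algebraMap R A)).height = k ∧
      k ≤ d ∧ P.height ≤ ((k + n : ℕ) : ℕ∞) := by
    intro P hP
    have h1 := hht (P.comap (algebraMap R A)) (Ideal.comap_isPrime _ _)
    have h2 := hYB R n A hA P
    obtain ⟨k, hk⟩ := ENat.ne_top_iff_exists.1 (ne_top_of_le_ne_top (ENat.coe_ne_top d) h1)
    refine ⟨k, hk.symm, ?_, ?_⟩
    · rw [← hk] at h1; exact_mod_cast h1
    · rw [← hk] at h2; push_cast; exact h2
  by_cases hm : maximalIdeal R ∈ minimalPrimes R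
  · refine ⟨1, ?_, ?_, ?_⟩
    · intro P hP _
      obtain ⟨k, hk1, hk2, hk3⟩ := hfin P hP
      have hpr : (P.comap (algebraMap R A)).IsPrime := Ideal.comap_isPrime _ _
      have hle : P.comap (algebraMap R A) ≤ maximalIdeal R := le_maximalIdeal hpr.ne_top
      have heq : P.comap (algebraMap R A) = maximalIdeal R :=
        le_antisymm hle (hm.2 ⟨hpr, bot_le⟩ hle)
      have h0 : (P.comap (algebraMap R A)).height = 0 := by
        rw [Ideal.height_eq_zero_iff, heq]; exact hm
      rw [h0] at hk1
      have hk0 : k = 0 := by exact_mod_cast hk1.symm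
      refine lt_of_le_of_lt hk3 ?_
      exact_mod_cast (by omega : k + n < d + n)
    · intro P hP
      obtain ⟨k, hk1, hk2, hk3⟩ := hfin P hP
      refine hk3.trans ?_
      exact_mod_cast (by omega : k + n ≤ d + n)
    · intro P hP h1
      rw [map_one] at h1
      exact absurd ((Ideal.eq_top_iff_one P).2 h1) hP.ne_top
  · have hfinite : (minimalPrimes R).Finite := minimalPrimes.finite_of_isNoetherianRing R
    have havoid : ∃ s ∈ maximalIdeal R, ∀ q ∈ minimalPrimes R, s ∉ q := by
      by_contra hcon
      push Not at hcon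
      have hsub : ((maximalIdeal R : Ideal R) : Set R) ⊆
          ⋃ q ∈ (↑hfinite.toFinset : Set (Ideal R)), ((id q : Ideal R) : Set R) := by
        intro s hs
        obtain ⟨q, hq, hsq⟩ := hcon s hs
        simp only [Set.mem_iUnion]
        exact ⟨q, by simpa using hq, hsq⟩
      obtain ⟨q, hq, hle⟩ := (Ideal.subset_union_prime (s := hfinite.toFinset) (f := id) ⊥ ⊥
        (fun q hq _ _ => by
          have : q ∈ minimalPrimes R := by simpa using hq
          exact this.1.1)).1 hsub
      have hq' : q ∈ minimalPrimes R := by simpa using hq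
      have heq : maximalIdeal R = q :=
        le_antisymm hle (le_maximalIdeal hq'.1.1.ne_top)
      exact hm (heq ▸ hq')
    obtain ⟨s, hsm, hs⟩ := havoid
    refine ⟨s, ?_, ?_, ?_⟩
    · intro P hP hsP
      obtain ⟨k, hk1, hk2, hk3⟩ := hfin P hP
      have hpr : (P.comap (algebraMap R A)).IsPrime := Ideal.comap_isPrime _ _
      have hlt : P.comap (algebraMap R A) < maximalIdeal R := by
        refine lt_of_le_of_ne (le_maximalIdeal hpr.ne_top) ?_
        intro h
        apply hsP
        have : s ∈ P.comap (algebraMap R A) := by rw [h]; exact hsm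
        exact this
      have h1 := Ideal.height_add_one_le_of_lt_of_isPrime hlt
      have h2 := h1.trans (hht _ inferInstance)
      rw [hk1] at h2
      have h3 : k + 1 ≤ d := by exact_mod_cast h2
      refine lt_of_le_of_lt hk3 ?_
      exact_mod_cast (by omega : k + n < d + n)
    · intro P hP
      obtain ⟨k, hk1, hk2, hk3⟩ := hfin P hP
      refine hk3.trans ?_
      exact_mod_cast (by omega : k + n ≤ d + n)
    · intro P hP hsP
      by_contra hcon
      have h0 : P.height = 0 := by
        rw [not_le] at hcon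
        exact ENat.lt_one_iff_eq_zero.1 hcon
      obtain ⟨q, hq, hsq⟩ := min_over A P (Ideal.height_eq_zero_iff.1 h0) s hsP
      exact hs q hq hsq

end Pool.Agent.Helper28.GU2
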